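import Mathlib

set_option autoImplicit false

open Set

namespace Q88.PropS

/-- The part of the region `R` on one side of `i`: left of `i` if `c` is true, right of `i`
otherwise. -/
def side (R : Set ℕ) (c : Bool) (i : ℕ) : Set ℕ := {g | g ∈ R ∧ if c then g < i else i < g}

/-- The pattern functional: a quadratic expression `x(i₀)² + δ x(i₁)² + δ² x(i₂)² + ...`, maximised
over the choices `i₀, i₁, ...` in `R` such that all later indices lie on the side of `i_k`
prescribed by the pattern. -/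
noncomputable def F (δ : ℝ) : List Bool → Set ℕ → (ℕ → ℝ) → ℝ
  | [], R, x => ⨆ i : ℕ, R.indicator (fun i => x i ^ 2) i
  | c :: l, R, x => ⨆ i : ℕ, R.indicator (fun i => x i ^ 2 + δ * F δ l (side R c i) x) i

theorem F_nonneg {δ : ℝ} (hδ : 0 ≤ δ) (l : List Bool) :
    ∀ (R : Set ℕ) (x : ℕ → ℝ), 0 ≤ F δ l R x := by
  induction l with
  | nil =>
    intro R x
    exact Real.iSup_nonneg fun i => Set.indicator_nonneg (fun j _ => sq_nonneg _) _
  | cons c l ih =>
    intro R x
    exact Real.iSup_nonneg fun i => Set.indicator_nonneg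
      (fun j _ => add_nonneg (sq_nonneg _) (mul_nonneg hδ (ih _ _))) _

theorem F_le {δ T : ℝ} (hδ : 0 ≤ δ) (hδ' : δ ≤ 1 / 2) (l : List Bool) :
    ∀ (R : Set ℕ) (x : ℕ → ℝ), (∀ i, |x i| ≤ T) → F δ l R x ≤ 2 * T ^ 2 := by
  have hsq : ∀ x : ℕ → ℝ, (∀ i, |x i| ≤ T) → ∀ i, x i ^ 2 ≤ T ^ 2 := fun x hx i =>
    sq_le_sq' (by have := hx i; rw [abs_le] at this; exact this.1)
      (by have := hx i; rw [abs_le] at this; exact this.2)
  induction l with
  | nil =>
    intro R x hx
    refine ciSup_le fun i => ?_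
    by_cases hi : i ∈ R
    · rw [Set.indicator_of_mem hi]; nlinarith [hsq x hx i, sq_nonneg T]
    · rw [Set.indicator_of_notMem hi]; positivity
  | cons c l ih =>
    intro R x hx
    refine ciSup_le fun i => ?_
    by_cases hi : i ∈ R
    · rw [Set.indicator_of_mem hi]
      have h1 := ih (side R c i) x hx
      have h2 := F_nonneg hδ l (side R c i) x
      nlinarith [hsq x hx i, sq_nonneg T]
    · rw [Set.indicator_of_notMem hi]; positivity

/-- the family whose supremum is `F` -/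
noncomputable def G (δ : ℝ) (l : List Bool) (R : Set ℕ) (x : ℕ → ℝ) (i : ℕ) : ℝ :=
  match l with
  | [] => R.indicator (fun i => x i ^ 2) i
  | c :: l => R.indicator (fun i => x i ^ 2 + δ * F δ l (side R c i) x) i

theorem F_eq (δ : ℝ) (l : List Bool) (R : Set ℕ) (x : ℕ → ℝ) : F δ l R x = ⨆ i, G δ l R x i := by
  cases l <;> rfl

theorem G_bdd {δ T : ℝ} (hδ : 0 ≤ δ) (hδ' : δ ≤ 1 / 2) (l : List Bool) (R : Set ℕ) (x : ℕ → ℝ)
    (hx : ∀ i, |x i| ≤ T) : BddAbove (Set.range (G δ l R x)) := by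
  have hsq : ∀ i, x i ^ 2 ≤ T ^ 2 := fun i =>
    sq_le_sq' (by have := hx i; rw [abs_le] at this; exact this.1)
      (by have := hx i; rw [abs_le] at this; exact this.2)
  refine ⟨2 * T ^ 2, ?_⟩
  rintro _ ⟨i, rfl⟩
  cases l with
  | nil =>
    show R.indicator (fun i => x i ^ 2) i ≤ _
    by_cases hi : i ∈ R
    · rw [Set.indicator_of_mem hi]; nlinarith [hsq i, sq_nonneg T]
    · rw [Set.indicator_of_notMem hi]; positivity
  | cons c l =>
    show R.indicator (fun i => x i ^ 2 + δ * F δ l (side R c i) x) i ≤ _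
    by_cases hi : i ∈ R
    · rw [Set.indicator_of_mem hi]
      have h1 := F_le hδ hδ' l (side R c i) x hx
      have h2 := F_nonneg hδ l (side R c i) x
      nlinarith [hsq i, sq_nonneg T]
    · rw [Set.indicator_of_notMem hi]; positivity

theorem le_F_nil {δ T : ℝ} (hδ : 0 ≤ δ) (hδ' : δ ≤ 1 / 2) {R : Set ℕ} {x : ℕ → ℝ}
    (hx : ∀ i, |x i| ≤ T) {i : ℕ} (hi : i ∈ R) : x i ^ 2 ≤ F δ [] R x := by
  rw [F_eq]
  refine le_trans (le_of_eq ?_) (le_ciSup (G_bdd hδ hδ' [] R x hx) i)
  show _ = R.indicator (fun i => x i ^ 2) i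
  rw [Set.indicator_of_mem hi]

theorem le_F_cons {δ T : ℝ} (hδ : 0 ≤ δ) (hδ' : δ ≤ 1 / 2) {c : Bool} {l : List Bool} {R : Set ℕ}
    {x : ℕ → ℝ} (hx : ∀ i, |x i| ≤ T) {i : ℕ} (hi : i ∈ R) :
    x i ^ 2 + δ * F δ l (side R c i) x ≤ F δ (c :: l) R x := by
  rw [F_eq δ (c :: l)]
  refine le_trans (le_of_eq ?_) (le_ciSup (G_bdd hδ hδ' (c :: l) R x hx) i)
  show _ = R.indicator (fun i => x i ^ 2 + δ * F δ l (side R c i) x) i
  rw [Set.indicator_of_mem hi]

theorem F_congr {δ : ℝ} (l : List Bool) :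
    ∀ (R : Set ℕ) (x y : ℕ → ℝ), (∀ i ∈ R, x i = y i) → F δ l R x = F δ l R y := by
  induction l with
  | nil =>
    intro R x y h
    show (⨆ i : ℕ, R.indicator (fun i => x i ^ 2) i) = ⨆ i : ℕ, R.indicator (fun i => y i ^ 2) i
    refine iSup_congr fun i => ?_
    by_cases hi : i ∈ R
    · rw [Set.indicator_of_mem hi, Set.indicator_of_mem hi, h i hi]
    · rw [Set.indicator_of_notMem hi, Set.indicator_of_notMem hi]
  | cons c l ih =>
    intro R x y h
    show (⨆ i : ℕ, R.indicator (fun i => x i ^ 2 + δ * F δ l (side R c i) x) i)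
      = ⨆ i : ℕ, R.indicator (fun i => y i ^ 2 + δ * F δ l (side R c i) y) i
    refine iSup_congr fun i => ?_
    by_cases hi : i ∈ R
    · rw [Set.indicator_of_mem hi, Set.indicator_of_mem hi, h i hi,
        ih (side R c i) x y (fun g hg => h g hg.1)]
    · rw [Set.indicator_of_notMem hi, Set.indicator_of_notMem hi]

theorem F_smul {δ : ℝ} (t : ℝ) (l : List Bool) :
    ∀ (R : Set ℕ) (x : ℕ → ℝ), F δ l R (fun i => t * x i) = t ^ 2 * F δ l R x := by
  induction l with
  | nil =>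
    intro R x
    show (⨆ i : ℕ, R.indicator (fun i => (t * x i) ^ 2) i)
      = t ^ 2 * ⨆ i : ℕ, R.indicator (fun i => x i ^ 2) i
    rw [Real.mul_iSup_of_nonneg (sq_nonneg t)]
    refine iSup_congr fun i => ?_
    by_cases hi : i ∈ R
    · rw [Set.indicator_of_mem hi, Set.indicator_of_mem hi]; ring
    · rw [Set.indicator_of_notMem hi, Set.indicator_of_notMem hi]; ring
  | cons c l ih =>
    intro R x
    show (⨆ i : ℕ, R.indicator (fun i => (t * x i) ^ 2
        + δ * F δ l (side R c i) (fun i => t * x i)) i)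
      = t ^ 2 * ⨆ i : ℕ, R.indicator (fun i => x i ^ 2 + δ * F δ l (side R c i) x) i
    rw [Real.mul_iSup_of_nonneg (sq_nonneg t)]
    refine iSup_congr fun i => ?_
    by_cases hi : i ∈ R
    · rw [Set.indicator_of_mem hi, Set.indicator_of_mem hi, ih]; ring
    · rw [Set.indicator_of_notMem hi, Set.indicator_of_notMem hi]; ring

theorem sq_convex {a b s t : ℝ} (ha : 0 ≤ a) (hb : 0 ≤ b) (hab : a + b = 1) :
    (a * s + b * t) ^ 2 ≤ a * s ^ 2 + b * t ^ 2 := by
  have : b = 1 - a := by linarith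
  subst this
  nlinarith [mul_nonneg (mul_nonneg ha hb) (sq_nonneg (s - t))]

theorem F_convex {δ T : ℝ} (hδ : 0 ≤ δ) (hδ' : δ ≤ 1 / 2) {a b : ℝ} (ha : 0 ≤ a) (hb : 0 ≤ b)
    (hab : a + b = 1) (l : List Bool) :
    ∀ (R : Set ℕ) (x y : ℕ → ℝ), (∀ i, |x i| ≤ T) → (∀ i, |y i| ≤ T) →
      F δ l R (fun i => a * x i + b * y i) ≤ a * F δ l R x + b * F δ l R y := by
  induction l with
  | nil =>
    intro R x y hx hy
    refine ciSup_le fun i => ?_
    by_cases hi : i ∈ R
    · rw [Set.indicator_of_mem hi]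
      have h1 := le_F_nil hδ hδ' hx hi
      have h2 := le_F_nil hδ hδ' hy hi
      have h3 := sq_convex (s := x i) (t := y i) ha hb hab
      nlinarith [mul_le_mul_of_nonneg_left h1 ha, mul_le_mul_of_nonneg_left h2 hb]
    · rw [Set.indicator_of_notMem hi]
      have h1 := F_nonneg hδ [] R x
      have h2 := F_nonneg hδ [] R y
      positivity
  | cons c l ih =>
    intro R x y hx hy
    refine ciSup_le fun i => ?_
    by_cases hi : i ∈ R
    · rw [Set.indicator_of_mem hi]
      have h1 := le_F_cons (c := c) (l := l) hδ hδ' hx hi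
      have h2 := le_F_cons (c := c) (l := l) hδ hδ' hy hi
      have h3 := sq_convex (s := x i) (t := y i) ha hb hab
      have h4 := mul_le_mul_of_nonneg_left (ih (side R c i) x y hx hy) hδ
      nlinarith [mul_le_mul_of_nonneg_left h1 ha, mul_le_mul_of_nonneg_left h2 hb]
    · rw [Set.indicator_of_notMem hi]
      have h1 := F_nonneg hδ (c :: l) R x
      have h2 := F_nonneg hδ (c :: l) R y
      positivity

/-- the second difference of the pattern functional is nonnegative -/
theorem F_second {δ T : ℝ} (hδ : 0 ≤ δ) (hδ' : δ ≤ 1 / 2) (l : List Bool) (R : Set ℕ)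
    (u v : ℕ → ℝ) (h1 : ∀ i, |u i + v i| ≤ T) (h2 : ∀ i, |u i - v i| ≤ T) :
    2 * F δ l R u ≤ F δ l R (fun i => u i + v i) + F δ l R (fun i => u i - v i) := by
  have h := F_convex (a := 1 / 2) (b := 1 / 2) hδ hδ' (by norm_num) (by norm_num) (by norm_num) l R
    (fun i => u i + v i) (fun i => u i - v i) h1 h2
  have e : (fun i => 1 / 2 * (u i + v i) + 1 / 2 * (u i - v i)) = u := by
    funext i; ring
  simp only [e] at h
  linarith

end Q88.PropS
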