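import Pool.Agent.Q88.PropS.Basic

set_option autoImplicit false

open Set

namespace Q88.PropS

/-- Level of a real number with respect to the grid of width `b`. -/
noncomputable def lev (b : ℝ) (X : ℝ) : ℕ := ⌊|X| / b⌋₊

theorem lev_le {b : ℝ} (hb : 0 < b) (X : ℝ) : (lev b X : ℝ) * b ≤ |X| := by
  have h : (lev b X : ℝ) ≤ |X| / b := Nat.floor_le (by positivity)
  rwa [le_div_iff₀ hb] at h

theorem lt_lev {b : ℝ} (hb : 0 < b) (X : ℝ) : |X| < ((lev b X : ℝ) + 1) * b := by
  have h : |X| / b < (lev b X : ℝ) + 1 := Nat.lt_floor_add_one _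
  rwa [div_lt_iff₀ hb] at h

theorem bump {b β : ℝ} (hb : 0 < b) (hβ : 0 ≤ β) (X : ℝ) :
    ∃ U : ℝ, |U| = ((lev b X : ℝ) + 1) * b + β ∧ |U - X| ≤ b + β := by
  have h1 := lev_le hb X
  have h2 := lt_lev hb X
  have h3 : 0 ≤ ((lev b X : ℝ) + 1) * b + β := by positivity
  rcases le_total 0 X with hX | hX
  · refine ⟨((lev b X : ℝ) + 1) * b + β, abs_of_nonneg h3, ?_⟩
    rw [abs_of_nonneg hX] at h1 h2
    rw [abs_le]
    constructor <;> nlinarith
  · refine ⟨-(((lev b X : ℝ) + 1) * b + β), by rw [abs_neg, abs_of_nonneg h3], ?_⟩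
    rw [abs_of_nonpos hX] at h1 h2
    rw [abs_le]
    constructor <;> nlinarith

/-- The point `u` is a perturbation of `x` inside the region `R`, at which the pattern functional
with pattern `l` sees the coordinate `j`. -/
def Good (δ b γ : ℝ) (x : ℕ → ℝ) (j : ℕ) (R : Set ℕ) (l : List Bool) (u : ℕ → ℝ) : Prop :=
  (∀ g, g ∉ R → u g = x g) ∧ {g | u g ≠ x g}.Finite ∧
    (∀ g, |u g - x g| ≤ b + (l.length + 1) * γ) ∧
    (∀ Q : ℕ, (∀ g ∈ R, lev b (x g) ≤ Q) → ∀ g ∈ R, |u g| ≤ (Q + 1) * b + (l.length + 1) * γ) ∧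
    (∀ (v : ℕ → ℝ) (S : ℝ), (∀ i, |v i| ≤ S) →
      2 * F δ l R u + 2 * δ ^ l.length * (v j) ^ 2
        ≤ F δ l R (fun i => u i + v i) + F δ l R (fun i => u i - v i))

theorem good_base {δ b γ T : ℝ} (hδ : 0 ≤ δ) (hδ' : δ ≤ 1 / 2) (hb : 0 < b) (hγ : 0 < γ)
    (x : ℕ → ℝ) (hx : ∀ i, |x i| ≤ T) (j : ℕ) (R : Set ℕ) (hj : j ∈ R)
    (hmax : ∀ g ∈ R, lev b (x g) ≤ lev b (x j)) : ∃ u, Good δ b γ x j R [] u := by
  obtain ⟨U, hU, hUx⟩ := bump hb hγ.le (x j)
  have huj : Function.update x j U j = U := Function.update_self ..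
  have hug : ∀ g, g ≠ j → Function.update x j U g = x g := fun g hg => Function.update_of_ne hg ..
  refine ⟨Function.update x j U, ?_, ?_, ?_, ?_, ?_⟩
  · intro g hg
    exact hug g (fun h => hg (h ▸ hj))
  · refine (Set.finite_singleton j).subset fun g hg => ?_
    by_contra h
    exact hg (hug g h)
  · intro g
    by_cases hgj : g = j
    · subst hgj; rw [huj]; simpa using hUx
    · rw [hug g hgj, sub_self, abs_zero]; positivity
  · intro Q hQ g hg
    by_cases hgj : g = j
    · subst hgj; rw [huj, hU]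
      have : (lev b (x g) : ℝ) ≤ Q := by exact_mod_cast hQ g hg
      have : ((lev b (x g) : ℝ) + 1) * b ≤ (Q + 1) * b := by gcongr
      simpa using this
    · rw [hug g hgj]
      have h1 := lt_lev hb (x g)
      have : (lev b (x g) : ℝ) ≤ Q := by exact_mod_cast hQ g hg
      have : ((lev b (x g) : ℝ) + 1) * b ≤ (Q + 1) * b := by gcongr
      simp only [List.length_nil, Nat.cast_zero, zero_add, one_mul]
      linarith
  · intro v S hv
    have hbd : ∀ i, |Function.update x j U i| ≤ max T |U| := by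
      intro i
      by_cases hij : i = j
      · subst hij; rw [huj]; exact le_max_right _ _
      · rw [hug i hij]; exact (hx i).trans (le_max_left _ _)
    have h1 : F δ [] R (Function.update x j U) = U ^ 2 := by
      refine le_antisymm (ciSup_le fun g => ?_) ?_
      · by_cases hg : g ∈ R
        · rw [Set.indicator_of_mem hg]
          by_cases hgj : g = j
          · subst hgj; rw [huj]
          · rw [hug g hgj]
            have h2 := lt_lev hb (x g)
            have h3 : (lev b (x g) : ℝ) ≤ lev b (x j) := by exact_mod_cast hmax g hg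
            have h4 : ((lev b (x g) : ℝ) + 1) * b ≤ ((lev b (x j) : ℝ) + 1) * b := by gcongr
            exact sq_le_sq.2 (by rw [hU]; linarith)
        · rw [Set.indicator_of_notMem hg]; positivity
      · have := le_F_nil hδ hδ' hbd hj
        rwa [huj] at this
    have h2 : (U + v j) ^ 2 ≤ F δ [] R (fun i => Function.update x j U i + v i) := by
      have := le_F_nil (x := fun i => Function.update x j U i + v i) (T := max T |U| + S) hδ hδ'
        (fun i => (abs_add_le _ _).trans (add_le_add (hbd i) (hv i))) hj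
      simpa only [huj] using this
    have h3 : (U - v j) ^ 2 ≤ F δ [] R (fun i => Function.update x j U i - v i) := by
      have := le_F_nil (x := fun i => Function.update x j U i - v i) (T := max T |U| + S) hδ hδ'
        (fun i => (abs_sub _ _).trans (add_le_add (hbd i) (hv i))) hj
      simpa only [huj] using this
    rw [h1]
    simp only [List.length_nil, pow_zero]
    nlinarith

theorem good_step {δ b γ T T' : ℝ} (hδ : 0 ≤ δ) (hδ' : δ ≤ 1 / 2) (hb : 0 < b) (hγ : 0 < γ)
    (hsmall : 2 * T' ^ 2 * δ ≤ γ ^ 2) (x : ℕ → ℝ) (hx : ∀ i, |x i| ≤ T) (j : ℕ) (R : Set ℕ)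
    (c : Bool) (i₀ : ℕ) (hi₀ : i₀ ∈ R) (hmax : ∀ g ∈ R, lev b (x g) ≤ lev b (x i₀))
    (hji : j ≠ i₀)
    (l : List Bool) (u' : ℕ → ℝ) (hT' : T + b + (l.length + 2) * γ ≤ T')
    (H : Good δ b γ x j (side R c i₀) l u') : ∃ u, Good δ b γ x j R (c :: l) u := by
  obtain ⟨H1, H2, H3, H4, H5⟩ := H
  have hi₀' : i₀ ∉ side R c i₀ := by
    rintro ⟨-, h⟩
    cases c <;> simp at h
  have hβ : (0 : ℝ) ≤ (l.length + 2) * γ := by positivity
  obtain ⟨U, hU, hUx⟩ := bump hb hβ (x i₀)
  have hui : Function.update u' i₀ U i₀ = U := Function.update_self ..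
  have hug : ∀ g, g ≠ i₀ → Function.update u' i₀ U g = u' g := fun g hg =>
    Function.update_of_ne hg ..
  have hlen : (((c :: l).length : ℕ) : ℝ) + 1 = l.length + 2 := by
    push_cast [List.length_cons]; ring
  have hle2 : ((l.length : ℝ) + 1) * γ + γ = (l.length + 2) * γ := by ring
  have hlev : ∀ (Q : ℕ) g, lev b (x g) ≤ Q → |x g| ≤ (Q + 1) * b := by
    intro Q g hg
    have h1 := lt_lev hb (x g)
    have h2 : (lev b (x g) : ℝ) ≤ Q := by exact_mod_cast hg
    have h3 : ((lev b (x g) : ℝ) + 1) * b ≤ (Q + 1) * b := by gcongr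
    linarith
  have hbd' : ∀ g, |u' g| ≤ T + (b + (l.length + 1) * γ) := fun g => by
    have h1 : |u' g| ≤ |x g| + |u' g - x g| := by
      have := abs_add_le (x g) (u' g - x g)
      simpa using this
    linarith [H3 g, hx g]
  have hbd : ∀ g, |Function.update u' i₀ U g| ≤ T' := by
    intro g
    by_cases hg : g = i₀
    · subst hg; rw [hui]
      have h1 : |U| ≤ |x g| + |U - x g| := by
        have := abs_add_le (x g) (U - x g)
        simpa using this
      linarith [hx g]
    · rw [hug g hg]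
      nlinarith [hbd' g]
  have hsame : ∀ g ∈ side R c i₀, Function.update u' i₀ U g = u' g := fun g hg =>
    hug g (fun h => hi₀' (h ▸ hg))
  -- the elements of `R` other than `i₀` are smaller
  have hother : ∀ g ∈ R, g ≠ i₀ → |Function.update u' i₀ U g| ≤ |U| - γ := by
    intro g hg hgi
    rw [hug g hgi, hU]
    by_cases hgs : g ∈ side R c i₀
    · have := H4 (lev b (x i₀)) (fun k hk => hmax k hk.1) g hgs
      linarith
    · rw [H1 g hgs]
      have := hlev (lev b (x i₀)) g (hmax g hg)
      have h2 : (0 : ℝ) ≤ (l.length + 1) * γ := by positivity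
      linarith
  refine ⟨Function.update u' i₀ U, ?_, ?_, ?_, ?_, ?_⟩
  · intro g hg
    have hgi : g ≠ i₀ := fun h => hg (h ▸ hi₀)
    rw [hug g hgi]
    exact H1 g (fun h => hg h.1)
  · refine (H2.insert i₀).subset fun g hg => ?_
    by_cases hgi : g = i₀
    · exact Or.inl hgi
    · refine Or.inr ?_
      show u' g ≠ x g
      rw [← hug g hgi]; exact hg
  · intro g
    rw [hlen]
    by_cases hgi : g = i₀
    · subst hgi; rw [hui]; exact hUx
    · rw [hug g hgi]
      linarith [H3 g]
  · intro Q hQ g hg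
    rw [hlen]
    by_cases hgi : g = i₀
    · subst hgi; rw [hui, hU]
      have h2 : (lev b (x g) : ℝ) ≤ Q := by exact_mod_cast hQ g hg
      have h3 : ((lev b (x g) : ℝ) + 1) * b ≤ (Q + 1) * b := by gcongr
      linarith
    · rw [hug g hgi]
      by_cases hgs : g ∈ side R c i₀
      · have := H4 Q (fun k hk => hQ k hk.1) g hgs
        linarith
      · rw [H1 g hgs]
        have := hlev Q g (hQ g hg)
        linarith
  · intro v S hv
    set u := Function.update u' i₀ U with hu
    have hT0 : 0 ≤ T' := (abs_nonneg _).trans (hbd 0)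
    have hUγ : γ ≤ |U| := by
      rw [hU]
      have h1 : (0 : ℝ) ≤ ((lev b (x i₀) : ℝ) + 1) * b := by positivity
      have h2 : γ ≤ (l.length + 2) * γ := by
        have : (0 : ℝ) ≤ (l.length : ℝ) := Nat.cast_nonneg _
        nlinarith
      linarith
    have hFu : F δ l (side R c i₀) u = F δ l (side R c i₀) u' := F_congr l _ _ _ hsame
    have hmain : F δ (c :: l) R u ≤ U ^ 2 + δ * F δ l (side R c i₀) u' := by
      have h0 := F_nonneg hδ l (side R c i₀) u'
      have hU2 : U ^ 2 = |U| ^ 2 := (sq_abs U).symm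
      refine ciSup_le fun g => ?_
      by_cases hg : g ∈ R
      · rw [Set.indicator_of_mem hg]
        by_cases hgi : g = i₀
        · subst hgi; rw [hui, hFu]
        · have h1 := hother g hg hgi
          have h2 : F δ l (side R c g) u ≤ 2 * T' ^ 2 := F_le hδ hδ' l _ _ hbd
          have h3 : u g ^ 2 ≤ (|U| - γ) ^ 2 := by
            rw [← sq_abs (u g)]
            exact pow_le_pow_left₀ (abs_nonneg _) h1 2
          have h4 := mul_le_mul_of_nonneg_left h2 hδ
          have h5 : 0 ≤ δ * F δ l (side R c i₀) u' := mul_nonneg hδ h0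
          nlinarith
      · rw [Set.indicator_of_notMem hg]; positivity
    have hvb : ∀ i, |u i + v i| ≤ T' + S := fun i =>
      (abs_add_le _ _).trans (add_le_add (hbd i) (hv i))
    have hvb' : ∀ i, |u i - v i| ≤ T' + S := fun i =>
      (abs_sub _ _).trans (add_le_add (hbd i) (hv i))
    have h2 := le_F_cons (c := c) (l := l) (x := fun i => u i + v i) hδ hδ' hvb hi₀
    have h3 := le_F_cons (c := c) (l := l) (x := fun i => u i - v i) hδ hδ' hvb' hi₀
    have e2 : F δ l (side R c i₀) (fun i => u i + v i)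
        = F δ l (side R c i₀) (fun i => u' i + v i) :=
      F_congr l _ _ _ (fun g hg => by rw [hsame g hg])
    have e3 : F δ l (side R c i₀) (fun i => u i - v i)
        = F δ l (side R c i₀) (fun i => u' i - v i) :=
      F_congr l _ _ _ (fun g hg => by rw [hsame g hg])
    have h5 := mul_le_mul_of_nonneg_left (H5 v S hv) hδ
    rw [e2] at h2
    rw [e3] at h3
    simp only [hui] at h2 h3
    have hpow : δ ^ (c :: l).length = δ * δ ^ l.length := by
      rw [List.length_cons, pow_succ]; ring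
    rw [hpow]
    nlinarith [sq_nonneg (v i₀)]

theorem chain {δ b γ T T' : ℝ} (hδ : 0 ≤ δ) (hδ' : δ ≤ 1 / 2) (hb : 0 < b) (hγ : 0 < γ)
    (hsmall : 2 * T' ^ 2 * δ ≤ γ ^ 2) (x : ℕ → ℝ) (hx : ∀ i, |x i| ≤ T) (j : ℕ) :
    ∀ t : ℕ, T + b + (t + 1) * γ ≤ T' → ∀ p r : ℕ, p + r ≤ t → ∀ R : Set ℕ, j ∈ R →
      (∀ i ∈ R, i < j → lev b (x i) ≤ p) → (∀ i ∈ R, j < i → lev b (x i) ≤ r) →
      ∃ l : List Bool, l.length ≤ t ∧ ∃ u, Good δ b γ x j R l u := by
  intro t
  induction t with
  | zero =>
    intro _ p r hpr R hj hp hr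
    obtain ⟨u, hu⟩ := good_base hδ hδ' hb hγ x hx j R hj (fun g hg => by
      rcases lt_trichotomy g j with h | h | h
      · have := hp g hg h; omega
      · rw [h]
      · have := hr g hg h; omega)
    exact ⟨[], le_rfl, u, hu⟩
  | succ t ih =>
    intro hT' p r hpr R hj hp hr
    by_cases hmax : ∀ g ∈ R, lev b (x g) ≤ lev b (x j)
    · obtain ⟨u, hu⟩ := good_base hδ hδ' hb hγ x hx j R hj hmax
      exact ⟨[], Nat.zero_le _, u, hu⟩
    push Not at hmax
    obtain ⟨g₁, hg₁, hg₁'⟩ := hmax
    -- the maximal level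
    set A : Set ℕ := (fun g => lev b (x g)) '' R with hA
    have hAne : A.Nonempty := ⟨_, g₁, hg₁, rfl⟩
    have hAb : BddAbove A := by
      refine ⟨max (lev b (x j)) (max p r), ?_⟩
      rintro _ ⟨g, hg, rfl⟩
      rcases lt_trichotomy g j with h | h | h
      · exact (hp g hg h).trans ((le_max_left _ _).trans (le_max_right _ _))
      · rw [h]; exact le_max_left _ _
      · exact (hr g hg h).trans ((le_max_right _ _).trans (le_max_right _ _))
    obtain ⟨g₂, hg₂, hg₂'⟩ := Nat.sSup_mem hAne hAb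
    have hM : ∀ g ∈ R, lev b (x g) ≤ lev b (x g₂) := fun g hg => by
      have : lev b (x g) ≤ sSup A := le_csSup hAb ⟨g, hg, rfl⟩
      rwa [← hg₂'] at this
    have hMj : lev b (x j) < lev b (x g₂) := lt_of_lt_of_le hg₁' (hM g₁ hg₁)
    have hTt : ∀ l : List Bool, l.length ≤ t → T + b + (l.length + 2) * γ ≤ T' := by
      intro l hl
      have : (l.length : ℝ) ≤ t := by exact_mod_cast hl
      push_cast at hT'
      nlinarith
    have hTt' : T + b + (t + 1) * γ ≤ T' := by
      push_cast at hT'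
      nlinarith
    by_cases hL : ∃ i ∈ R, i < j ∧ lev b (x i) = lev b (x g₂)
    · -- pick the nearest one on the left
      obtain ⟨i₁, hi₁, hi₁j, hi₁l⟩ := hL
      set B : Set ℕ := {i | i ∈ R ∧ i < j ∧ lev b (x i) = lev b (x g₂)} with hB
      have hBb : BddAbove B := ⟨j, fun i hi => hi.2.1.le⟩
      obtain ⟨k1, k2, k3⟩ := Nat.sSup_mem (s := B) ⟨i₁, hi₁, hi₁j, hi₁l⟩ hBb
      set i₀ := sSup B with hi₀
      have hle : ∀ g ∈ R, i₀ < g → g < j → lev b (x g) < lev b (x g₂) := by
        intro g hg h1 h2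
        refine lt_of_le_of_ne (hM g hg) fun h => ?_
        have : g ≤ i₀ := le_csSup hBb ⟨hg, h2, h⟩
        omega
      have hpp := hp i₀ k1 k2
      obtain ⟨l, hl, u', hu'⟩ := ih hTt' (lev b (x g₂) - 1) r (by omega) (side R false i₀)
        ⟨hj, by simpa using k2⟩
        (fun i hi hij => by
          have h1 : i₀ < i := by simpa using hi.2
          have := hle i hi.1 h1 hij
          omega)
        (fun i hi hij => hr i hi.1 hij)
      obtain ⟨u, hu⟩ := good_step hδ hδ' hb hγ hsmall x hx j R false i₀ k1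
        (fun g hg => by rw [k3]; exact hM g hg) (by omega) l u' (hTt l hl) hu'
      exact ⟨false :: l, by simpa using hl, u, hu⟩
    · push Not at hL
      have hgj : j < g₂ := by
        rcases lt_trichotomy g₂ j with h | h | h
        · exact absurd rfl (hL g₂ hg₂ h)
        · exact absurd hMj (by rw [h]; exact lt_irrefl _)
        · exact h
      set B : Set ℕ := {i | i ∈ R ∧ j < i ∧ lev b (x i) = lev b (x g₂)} with hB
      obtain ⟨k1, k2, k3⟩ := Nat.sInf_mem (s := B) ⟨g₂, hg₂, hgj, rfl⟩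
      set i₀ := sInf B with hi₀
      have hle : ∀ g ∈ R, g < i₀ → j < g → lev b (x g) < lev b (x g₂) := by
        intro g hg h1 h2
        refine lt_of_le_of_ne (hM g hg) fun h => ?_
        have : i₀ ≤ g := Nat.sInf_le (⟨hg, h2, h⟩ : g ∈ B)
        omega
      have hrr := hr i₀ k1 k2
      obtain ⟨l, hl, u', hu'⟩ := ih hTt' p (lev b (x g₂) - 1) (by omega) (side R true i₀)
        ⟨hj, by simpa using k2⟩
        (fun i hi hij => hp i hi.1 hij)
        (fun i hi hij => by
          have h1 : i < i₀ := by simpa using hi.2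
          have := hle i hi.1 h1 hij
          omega)
      obtain ⟨u, hu⟩ := good_step hδ hδ' hb hγ hsmall x hx j R true i₀ k1
        (fun g hg => by rw [k3]; exact hM g hg) (by omega) l u' (hTt l hl) hu'
      exact ⟨true :: l, by simpa using hl, u, hu⟩

end Q88.PropS
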