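import Pool.Agent.Q88.PropS.Norm

set_option autoImplicit false

open Set

namespace Q88.PropS

/-- `U_p(x, y; a)`: the supremum of `|p (x + z) - p (y + z)|` over all `z` with `p z ≤ a`. -/
noncomputable def U {X : Type*} [AddCommGroup X] [Module ℝ X] (p : Seminorm ℝ X) (x y : X)
    (a : ℝ) : ℝ :=
  sSup {r : ℝ | ∃ z : X, p z ≤ a ∧ r = |p (x + z) - p (y + z)|}

/-- Uniform property (S) of a (semi)norm `p`: for all `0 < d < 2` and `a > 0` the infimum of
`U_p(x, y; a)` over all `x, y` in the unit sphere of `p` with `p (x - y) ≥ d` is positive. -/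
def UniformPropertyS {X : Type*} [AddCommGroup X] [Module ℝ X] (p : Seminorm ℝ X) : Prop :=
  ∀ d a : ℝ, 0 < d → d < 2 → 0 < a →
    ∃ ε : ℝ, 0 < ε ∧ ∀ x y : X, p x = 1 → p y = 1 → d ≤ p (x - y) → ε ≤ U p x y a

/-- `p` is an equivalent norm on the normed space `X`. -/
def IsEquivalentNorm {X : Type*} [NormedAddCommGroup X] [NormedSpace ℝ X]
    (p : Seminorm ℝ X) : Prop :=
  ∃ c C : ℝ, 0 < c ∧ ∀ x : X, c * ‖x‖ ≤ p x ∧ p x ≤ C * ‖x‖

theorem le_U {X : Type*} [AddCommGroup X] [Module ℝ X] (p : Seminorm ℝ X) (x y z : X) (a : ℝ)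
    (hz : p z ≤ a) : |p (x + z) - p (y + z)| ≤ U p x y a := by
  refine le_csSup ⟨p (x - y), ?_⟩ ⟨z, hz, rfl⟩
  rintro _ ⟨z, -, rfl⟩
  have h1 := abs_sub_map_le_sub p (x + z) (y + z)
  have e : x + z - (y + z) = x - y := by abel
  rwa [e] at h1

section

variable {X : Type*} [NormedAddCommGroup X] [NormedSpace ℝ X] (J : X →ₗ[ℝ] (ℕ → ℝ))

/-- The new norm. -/
noncomputable def newNorm (h1 : ∀ x i, |J x i| ≤ ‖x‖) : Seminorm ℝ X :=
  Seminorm.of (fun x => √(Phi (J x)))
    (fun x y => by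
      have hx : ∀ i, |J x i| ≤ ‖x‖ + ‖y‖ := fun i =>
        (h1 x i).trans (le_add_of_nonneg_right (norm_nonneg _))
      have hy : ∀ i, |J y i| ≤ ‖x‖ + ‖y‖ := fun i =>
        (h1 y i).trans (le_add_of_nonneg_left (norm_nonneg _))
      have := sqrt_Phi_add hx hy
      rw [map_add]
      exact this)
    (fun t x => by
      have e : J (t • x) = fun i => t * J x i := by
        rw [map_smul]; rfl
      rw [e, Phi_smul, Real.sqrt_mul (sq_nonneg t), Real.sqrt_sq_eq_abs, Real.norm_eq_abs])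

theorem newNorm_apply (h1 : ∀ x i, |J x i| ≤ ‖x‖) (x : X) : newNorm J h1 x = √(Phi (J x)) := rfl

theorem newNorm_sq (h1 : ∀ x i, |J x i| ≤ ‖x‖) (x : X) : newNorm J h1 x ^ 2 = Phi (J x) := by
  rw [newNorm_apply, Real.sq_sqrt (Phi_nonneg _)]

theorem newNorm_le (h1 : ∀ x i, |J x i| ≤ ‖x‖) (x : X) : newNorm J h1 x ≤ 2 * ‖x‖ := by
  rw [newNorm_apply]
  refine Real.sqrt_le_iff.2 ⟨by positivity, ?_⟩
  have := Phi_le (h1 x)
  nlinarith

theorem le_newNorm (h1 : ∀ x i, |J x i| ≤ ‖x‖)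
    (h2 : ∀ (x : X) (c : ℝ), 0 ≤ c → (∀ i, |J x i| ≤ c) → ‖x‖ ≤ c) (x : X) :
    √(w ([], 0)) * ‖x‖ ≤ newNorm J h1 x := by
  have hw : 0 < √(w ([], 0)) := Real.sqrt_pos.2 (w_pos _)
  have h3 : ‖x‖ ≤ newNorm J h1 x / √(w ([], 0)) := by
    refine h2 x _ (div_nonneg (apply_nonneg _ _) hw.le) fun i => ?_
    rw [le_div_iff₀ hw, newNorm_apply]
    refine Real.le_sqrt_of_sq_le ?_
    have := le_Phi (h1 x) i
    rw [mul_pow, Real.sq_sqrt (w_pos _).le, sq_abs]
    linarith
  rw [le_div_iff₀ hw] at h3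
  linarith

theorem main (h1 : ∀ x i, |J x i| ≤ ‖x‖)
    (h2 : ∀ (x : X) (c : ℝ), 0 ≤ c → (∀ i, |J x i| ≤ c) → ‖x‖ ≤ c)
    (h3 : ∀ i : ℕ, ∃ e : X, J e = Pi.single i 1) :
    ∃ p : Seminorm ℝ X, IsEquivalentNorm p ∧ UniformPropertyS p := by
  choose e he using h3
  set p := newNorm J h1 with hp
  have hw : 0 < √(w ([], 0)) := Real.sqrt_pos.2 (w_pos _)
  refine ⟨p, ⟨√(w ([], 0)), 2, hw, fun x => ⟨le_newNorm J h1 h2 x, newNorm_le J h1 x⟩⟩, ?_⟩
  intro d a hd _ ha
  set T := 1 / √(w ([], 0)) with hT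
  obtain ⟨κ, hκ, hvis⟩ := visible (T := T) (a := a / 4) (by positivity)
  set τ := min 1 (a / 4) with hτ
  have hτ0 : 0 < τ := lt_min one_pos (by positivity)
  have hτ1 : τ ≤ 1 := min_le_left _ _
  have hτa : τ ≤ a / 4 := min_le_right _ _
  set ρ := κ * (τ * (d / 4)) ^ 2 with hρ
  have hρ0 : 0 < ρ := by positivity
  refine ⟨ρ / (8 * (1 + a)), by positivity, ?_⟩
  intro x y hx hy hxy
  by_contra hcon
  push Not at hcon
  -- all differences are small
  have hdiff : ∀ z : X, p z ≤ a → |p (x + z) ^ 2 - p (y + z) ^ 2| ≤ ρ / 4 := by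
    intro z hz
    have h4 := (le_U p x y z a hz).trans hcon.le
    have h5 : p (x + z) ≤ 1 + a := (map_add_le_add p x z).trans (by linarith)
    have h6 : p (y + z) ≤ 1 + a := (map_add_le_add p y z).trans (by linarith)
    have h7 : p (x + z) ^ 2 - p (y + z) ^ 2
        = (p (x + z) - p (y + z)) * (p (x + z) + p (y + z)) := by ring
    rw [h7, abs_mul, abs_of_nonneg (add_nonneg (apply_nonneg p _) (apply_nonneg p _))]
    calc |p (x + z) - p (y + z)| * (p (x + z) + p (y + z))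
        ≤ ρ / (8 * (1 + a)) * (2 * (1 + a)) := by
          refine mul_le_mul h4 (by linarith) (add_nonneg (apply_nonneg p _) (apply_nonneg p _))
            (by positivity)
      _ = ρ / 4 := by field_simp; norm_num
  set v := y - x with hv
  have hpv : p v ≤ 2 := by
    rw [hv]
    have := map_sub_le_add p y x
    linarith
  have hpv' : d ≤ p v := by rw [hv, ← map_sub_rev p x y]; exact hxy
  have hnv : d / 2 ≤ ‖v‖ := by
    have := newNorm_le J h1 v
    linarith
  obtain ⟨j, hj⟩ : ∃ j, d / 4 ≤ |J v j| := by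
    by_contra h
    push Not at h
    have := h2 v (d / 4) (by positivity) (fun i => (h i).le)
    linarith
  have hxT : ∀ i, |J x i| ≤ T := fun i => by
    refine (h1 x i).trans ?_
    rw [hT, le_div_iff₀ hw]
    have := le_newNorm J h1 h2 x
    rw [← hp, hx] at this
    linarith
  obtain ⟨u, hfin, hua, hsec⟩ := hvis (J x) hxT j
  -- the point of the space with coordinates `u`
  set u₀ : X := x + ∑ g ∈ hfin.toFinset, (u g - J x g) • e g with hu₀
  have hJu : J u₀ = u := by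
    funext i
    rw [hu₀, map_add, map_sum]
    simp only [Pi.add_apply, Finset.sum_apply, map_smul, he, Pi.smul_apply, smul_eq_mul]
    by_cases hi : i ∈ hfin.toFinset
    · rw [Finset.sum_eq_single i]
      · rw [Pi.single_eq_same]; ring
      · intro g _ hgi
        rw [Pi.single_eq_of_ne (Ne.symm hgi), mul_zero]
      · intro h; exact absurd hi h
    · rw [Finset.sum_eq_zero]
      · have : ¬ (u i ≠ J x i) := fun h => hi (hfin.mem_toFinset.2 h)
        push Not at this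
        rw [this, add_zero]
      · intro g hg
        have : i ≠ g := fun h => hi (h ▸ hg)
        rw [Pi.single_eq_of_ne this, mul_zero]
  have hz₀ : p (u₀ - x) ≤ a / 2 := by
    have h4 : ‖u₀ - x‖ ≤ a / 4 := h2 _ _ (by positivity) fun i => by
      rw [map_sub, Pi.sub_apply, hJu]; exact hua i
    have h5 := newNorm_le J h1 (u₀ - x)
    linarith
  have hz₁ : p (u₀ - x - τ • v) ≤ a := by
    have h4 := map_sub_le_add p (u₀ - x) (τ • v)
    rw [map_smul_eq_mul, Real.norm_of_nonneg hτ0.le] at h4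
    nlinarith
  have hd0 := hdiff (u₀ - x) (by linarith)
  have hd1 := hdiff (u₀ - x - τ • v) hz₁
  have e0 : x + (u₀ - x) = u₀ := by abel
  have e1 : y + (u₀ - x) = u₀ + v := by rw [hv]; abel
  have e2 : x + (u₀ - x - τ • v) = u₀ - τ • v := by abel
  have e3 : y + (u₀ - x - τ • v) = u₀ + (1 - τ) • v := by
    rw [sub_smul, one_smul, hv]; abel
  rw [e0, e1] at hd0
  rw [e2, e3] at hd1
  simp only [hp, newNorm_sq] at hd0 hd1
  -- second difference
  have hs := hsec (fun i => τ * J v i) (τ * ‖v‖) (fun i => by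
    rw [abs_mul, abs_of_pos hτ0]; exact mul_le_mul_of_nonneg_left (h1 v i) hτ0.le)
  have f1 : (fun i => u i + τ * J v i) = J (u₀ + τ • v) := by
    funext i; rw [map_add, map_smul, hJu]; rfl
  have f2 : (fun i => u i - τ * J v i) = J (u₀ - τ • v) := by
    funext i; rw [map_sub J u₀ (τ • v), map_smul, hJu]; rfl
  rw [f1, f2, ← hJu] at hs
  have hs' : ρ ≤ κ * (τ * J v j) ^ 2 := by
    rw [hρ]
    refine mul_le_mul_of_nonneg_left ?_ hκ.le
    rw [← sq_abs (τ * J v j), abs_mul, abs_of_pos hτ0]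
    exact pow_le_pow_left₀ (by positivity) (mul_le_mul_of_nonneg_left hj hτ0.le) 2
  -- convexity
  have hM0 : ∀ i, |J u₀ i| ≤ ‖u₀‖ + ‖u₀ + v‖ := fun i =>
    (h1 _ i).trans (le_add_of_nonneg_right (norm_nonneg _))
  have hM1 : ∀ i, |J (u₀ + v) i| ≤ ‖u₀‖ + ‖u₀ + v‖ := fun i =>
    (h1 _ i).trans (le_add_of_nonneg_left (norm_nonneg _))
  have c1 := Phi_convex (a := 1 - τ) (b := τ) (by linarith) hτ0.le (by ring) hM0 hM1
  have c2 := Phi_convex (a := τ) (b := 1 - τ) hτ0.le (by linarith) (by ring) hM0 hM1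
  have g1 : (fun i => (1 - τ) * J u₀ i + τ * J (u₀ + v) i) = J (u₀ + τ • v) := by
    funext i
    simp only [map_add, map_smul, Pi.add_apply, Pi.smul_apply, smul_eq_mul]
    ring
  have g2 : (fun i => τ * J u₀ i + (1 - τ) * J (u₀ + v) i) = J (u₀ + (1 - τ) • v) := by
    funext i
    simp only [map_add, map_smul, Pi.add_apply, Pi.smul_apply, smul_eq_mul]
    ring
  rw [g1] at c1
  rw [g2] at c2
  rw [abs_le] at hd0 hd1
  linarith [hd0.1, hd0.2, hd1.1, hd1.2]

end

end Q88.PropS
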