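import Pool.Agent.Q88.PropS.Chain

set_option autoImplicit false

open Set Encodable

namespace Q88.PropS

/-- Index set: a pattern and the number of the weight sequence. -/
abbrev Idx : Type := List Bool × ℕ

/-- the ratio of the weight sequence -/
noncomputable def dl (n : ℕ) : ℝ := (1 / 2) ^ (n + 1)

theorem dl_nonneg (n : ℕ) : 0 ≤ dl n := by unfold dl; positivity

theorem dl_pos (n : ℕ) : 0 < dl n := by unfold dl; positivity

theorem dl_le (n : ℕ) : dl n ≤ 1 / 2 := by
  unfold dl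
  rw [pow_succ]
  have : ((1 : ℝ) / 2) ^ n ≤ 1 := pow_le_one₀ (by norm_num) (by norm_num)
  linarith

/-- the weight of an index -/
noncomputable def w (i : Idx) : ℝ := (1 / 2) ^ encode i

theorem w_pos (i : Idx) : 0 < w i := by unfold w; positivity

theorem w_summable : Summable w := summable_geometric_two_encode

theorem w_tsum : ∑' i, w i ≤ 2 := by
  have h := tsum_comp_le_tsum_of_inj summable_geometric_two (fun n => by positivity)
    (encode_injective (α := Idx))
  rwa [tsum_geometric_two] at h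

/-- The square of the new norm. -/
noncomputable def Phi (x : ℕ → ℝ) : ℝ := ∑' i : Idx, w i * F (dl i.2) i.1 univ x

theorem Phi_summable {x : ℕ → ℝ} {T : ℝ} (hx : ∀ i, |x i| ≤ T) :
    Summable fun i : Idx => w i * F (dl i.2) i.1 univ x :=
  Summable.of_nonneg_of_le
    (fun i => mul_nonneg (w_pos i).le (F_nonneg (dl_nonneg _) _ _ _))
    (fun i => mul_le_mul_of_nonneg_left (F_le (dl_nonneg _) (dl_le _) _ _ _ hx) (w_pos i).le)
    (w_summable.mul_right (2 * T ^ 2))

theorem Phi_nonneg (x : ℕ → ℝ) : 0 ≤ Phi x :=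
  tsum_nonneg fun i => mul_nonneg (w_pos i).le (F_nonneg (dl_nonneg _) _ _ _)

theorem Phi_le {x : ℕ → ℝ} {T : ℝ} (hx : ∀ i, |x i| ≤ T) : Phi x ≤ 4 * T ^ 2 := by
  have h1 : Phi x ≤ ∑' i : Idx, w i * (2 * T ^ 2) :=
    (Phi_summable hx).tsum_le_tsum
      (fun i => mul_le_mul_of_nonneg_left (F_le (dl_nonneg _) (dl_le _) _ _ _ hx) (w_pos i).le)
      (w_summable.mul_right (2 * T ^ 2))
  rw [tsum_mul_right] at h1
  nlinarith [w_tsum, sq_nonneg T]

theorem le_Phi {x : ℕ → ℝ} {T : ℝ} (hx : ∀ i, |x i| ≤ T) (k : ℕ) :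
    w ([], 0) * x k ^ 2 ≤ Phi x := by
  have h1 : w ([], 0) * F (dl 0) [] univ x ≤ Phi x :=
    (Phi_summable hx).le_tsum ([], 0)
      (fun i _ => mul_nonneg (w_pos i).le (F_nonneg (dl_nonneg _) _ _ _))
  have h2 := le_F_nil (dl_nonneg 0) (dl_le 0) hx (mem_univ k)
  exact (mul_le_mul_of_nonneg_left h2 (w_pos _).le).trans h1

theorem Phi_smul (t : ℝ) (x : ℕ → ℝ) : Phi (fun i => t * x i) = t ^ 2 * Phi x := by
  unfold Phi
  rw [← tsum_mul_left]
  refine tsum_congr fun i => ?_
  rw [F_smul]; ring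

theorem Phi_convex {a b : ℝ} (ha : 0 ≤ a) (hb : 0 ≤ b) (hab : a + b = 1) {x y : ℕ → ℝ} {T : ℝ}
    (hx : ∀ i, |x i| ≤ T) (hy : ∀ i, |y i| ≤ T) :
    Phi (fun i => a * x i + b * y i) ≤ a * Phi x + b * Phi y := by
  have hz : ∀ i, |a * x i + b * y i| ≤ T := fun i => by
    have h1 := abs_add_le (a * x i) (b * y i)
    rw [abs_mul, abs_mul, abs_of_nonneg ha, abs_of_nonneg hb] at h1
    have h2 := mul_le_mul_of_nonneg_left (hx i) ha
    have h3 := mul_le_mul_of_nonneg_left (hy i) hb
    have : a * T + b * T = T := by rw [← add_mul, hab, one_mul]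
    linarith
  unfold Phi
  rw [← tsum_mul_left, ← tsum_mul_left, ← ((Phi_summable hx).mul_left a).tsum_add
    ((Phi_summable hy).mul_left b)]
  refine (Phi_summable hz).tsum_le_tsum (fun i => ?_)
    (((Phi_summable hx).mul_left a).add ((Phi_summable hy).mul_left b))
  have := mul_le_mul_of_nonneg_left
    (F_convex (dl_nonneg i.2) (dl_le i.2) ha hb hab i.1 univ x y hx hy) (w_pos i).le
  linarith

/-- Triangle inequality for the square root. -/
theorem sqrt_Phi_add {x y : ℕ → ℝ} {T : ℝ} (hx : ∀ i, |x i| ≤ T) (hy : ∀ i, |y i| ≤ T) :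
    √(Phi (fun i => x i + y i)) ≤ √(Phi x) + √(Phi y) := by
  refine le_of_forall_pos_le_add fun ε hε => ?_
  set α := √(Phi x) + ε / 2 with hα
  set β := √(Phi y) + ε / 2 with hβ
  have hα0 : 0 < α := by positivity
  have hβ0 : 0 < β := by positivity
  have hxα : Phi x ≤ α ^ 2 := by
    have h1 : Phi x = √(Phi x) ^ 2 := (Real.sq_sqrt (Phi_nonneg x)).symm
    rw [h1, hα]
    exact pow_le_pow_left₀ (Real.sqrt_nonneg _) (by linarith) 2
  have hyβ : Phi y ≤ β ^ 2 := by
    have h1 : Phi y = √(Phi y) ^ 2 := (Real.sq_sqrt (Phi_nonneg y)).symm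
    rw [h1, hβ]
    exact pow_le_pow_left₀ (Real.sqrt_nonneg _) (by linarith) 2
  have hs : 0 < α + β := by positivity
  have hbx : ∀ i, |(α + β) / α * x i| ≤ (α + β) / α * T + (α + β) / β * T := fun i => by
    have hT : 0 ≤ T := (abs_nonneg _).trans (hx 0)
    rw [abs_mul, abs_of_pos (by positivity : 0 < (α + β) / α)]
    have := mul_le_mul_of_nonneg_left (hx i) (by positivity : 0 ≤ (α + β) / α)
    have h2 : 0 ≤ (α + β) / β * T := by positivity
    linarith
  have hby : ∀ i, |(α + β) / β * y i| ≤ (α + β) / α * T + (α + β) / β * T := fun i => by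
    have hT : 0 ≤ T := (abs_nonneg _).trans (hx 0)
    rw [abs_mul, abs_of_pos (by positivity : 0 < (α + β) / β)]
    have := mul_le_mul_of_nonneg_left (hy i) (by positivity : 0 ≤ (α + β) / β)
    have h2 : 0 ≤ (α + β) / α * T := by positivity
    linarith
  have h := Phi_convex (a := α / (α + β)) (b := β / (α + β)) (by positivity) (by positivity)
    (by field_simp) hbx hby
  have e : (fun i => α / (α + β) * ((α + β) / α * x i) + β / (α + β) * ((α + β) / β * y i))
      = fun i => x i + y i := by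
    funext i; field_simp
  rw [e, Phi_smul, Phi_smul] at h
  have h1 : α / (α + β) * (((α + β) / α) ^ 2 * Phi x) ≤ α * (α + β) := by
    have : α / (α + β) * (((α + β) / α) ^ 2 * Phi x) = (α + β) / α * Phi x := by field_simp
    rw [this]
    calc (α + β) / α * Phi x ≤ (α + β) / α * α ^ 2 := by gcongr
      _ = α * (α + β) := by field_simp
  have h2 : β / (α + β) * (((α + β) / β) ^ 2 * Phi y) ≤ β * (α + β) := by
    have : β / (α + β) * (((α + β) / β) ^ 2 * Phi y) = (α + β) / β * Phi y := by field_simp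
    rw [this]
    calc (α + β) / β * Phi y ≤ (α + β) / β * β ^ 2 := by gcongr
      _ = β * (α + β) := by field_simp
  have h3 : Phi (fun i => x i + y i) ≤ (α + β) ^ 2 := by nlinarith
  calc √(Phi (fun i => x i + y i)) ≤ √((α + β) ^ 2) := Real.sqrt_le_sqrt h3
    _ = α + β := Real.sqrt_sq hs.le
    _ = √(Phi x) + √(Phi y) + ε := by rw [hα, hβ]; ring

/-- Uniform visibility: near every point of a ball there is a point at which the second
difference of `Phi` sees a given coordinate. -/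
theorem visible {T a : ℝ} (ha : 0 < a) :
    ∃ κ : ℝ, 0 < κ ∧ ∀ (x : ℕ → ℝ), (∀ i, |x i| ≤ T) → ∀ j : ℕ, ∃ u : ℕ → ℝ,
      {g | u g ≠ x g}.Finite ∧ (∀ g, |u g - x g| ≤ a) ∧
      ∀ (v : ℕ → ℝ) (S : ℝ), (∀ i, |v i| ≤ S) →
        2 * Phi u + κ * (v j) ^ 2 ≤ Phi (fun i => u i + v i) + Phi (fun i => u i - v i) := by
  set b := a / 2 with hb
  have hb0 : 0 < b := by positivity
  set q := ⌊T / b⌋₊ with hq
  set t := q + q with ht
  set γ := a / (2 * (t + 1)) with hγ
  have hγ0 : 0 < γ := by positivity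
  have hγt : (t + 1) * γ = a / 2 := by rw [hγ]; field_simp
  set T' := T + b + (t + 1) * γ with hT'
  obtain ⟨n, hn⟩ : ∃ n : ℕ, 2 * T' ^ 2 * dl n ≤ γ ^ 2 := by
    have h1 : Filter.Tendsto (fun n : ℕ => 2 * T' ^ 2 * dl n) Filter.atTop (nhds 0) := by
      have h2 : Filter.Tendsto (fun n : ℕ => ((1 : ℝ) / 2) ^ (n + 1)) Filter.atTop (nhds 0) :=
        (Filter.tendsto_add_atTop_iff_nat 1).2
          (tendsto_pow_atTop_nhds_zero_of_lt_one (by norm_num) (by norm_num))
      simpa [dl] using h2.const_mul (2 * T' ^ 2)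
    have h3 := h1.eventually (gt_mem_nhds (show (0 : ℝ) < γ ^ 2 by positivity))
    obtain ⟨n, hn⟩ := h3.exists
    exact ⟨n, hn.le⟩
  have hfin : {l : List Bool | l.length ≤ t}.Finite := List.finite_length_le Bool t
  obtain ⟨l₀, hl₀, hmin⟩ := Set.exists_min_image {l : List Bool | l.length ≤ t}
    (fun l => w (l, n) * (2 * dl n ^ l.length)) hfin ⟨[], Nat.zero_le _⟩
  refine ⟨w (l₀, n) * (2 * dl n ^ l₀.length), ?_, ?_⟩
  · have := w_pos (l₀, n)
    have := dl_pos n
    positivity
  intro x hx j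
  have hlev : ∀ i, lev b (x i) ≤ q := fun i => by
    unfold lev
    exact Nat.floor_le_floor (by gcongr; exact hx i)
  obtain ⟨l, hl, u, h1, h2, h3, h4, h5⟩ := chain (dl_nonneg n) (dl_le n) hb0 hγ0 hn x hx j t
    le_rfl q q le_rfl univ (mem_univ _) (fun i _ _ => hlev i) (fun i _ _ => hlev i)
  refine ⟨u, h2, fun g => (h3 g).trans ?_, ?_⟩
  · have : (l.length : ℝ) ≤ t := by exact_mod_cast hl
    nlinarith
  intro v S hv
  have hu : ∀ i, |u i| ≤ T + (b + (l.length + 1) * γ) := fun i => by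
    have h6 : |u i| ≤ |x i| + |u i - x i| := by
      have := abs_add_le (x i) (u i - x i)
      simpa using this
    linarith [h3 i, hx i]
  set M := T + (b + (l.length + 1) * γ) with hM
  have hup : ∀ i, |u i + v i| ≤ M + S := fun i =>
    (abs_add_le _ _).trans (add_le_add (hu i) (hv i))
  have hum : ∀ i, |u i - v i| ≤ M + S := fun i =>
    (abs_sub _ _).trans (add_le_add (hu i) (hv i))
  have s0 := Phi_summable hu
  have s1 := Phi_summable hup
  have s2 := Phi_summable hum
  -- the difference as one series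
  set D : Idx → ℝ := fun i => w i * F (dl i.2) i.1 univ (fun i => u i + v i)
    + w i * F (dl i.2) i.1 univ (fun i => u i - v i) - 2 * (w i * F (dl i.2) i.1 univ u) with hD
  have hDs : Summable D := (s1.add s2).sub (s0.mul_left 2)
  have hDt : ∑' i, D i = Phi (fun i => u i + v i) + Phi (fun i => u i - v i) - 2 * Phi u := by
    rw [hD, (s1.add s2).tsum_sub (s0.mul_left 2), s1.tsum_add s2, tsum_mul_left]
    rfl
  have hD0 : ∀ i, 0 ≤ D i := fun i => by
    have h6 := F_second (dl_nonneg i.2) (dl_le i.2) i.1 univ u v hup hum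
    have h7 := mul_le_mul_of_nonneg_left h6 (w_pos i).le
    simp only [hD]
    linarith
  have hDl : w (l, n) * (2 * dl n ^ l.length) * v j ^ 2 ≤ D (l, n) := by
    have h6 := h5 v S hv
    have h7 := mul_le_mul_of_nonneg_left h6 (w_pos (l, n)).le
    simp only [hD]
    linarith
  have h8 : D (l, n) ≤ ∑' i, D i := hDs.le_tsum (l, n) (fun i _ => hD0 i)
  have h9 : w (l₀, n) * (2 * dl n ^ l₀.length) * v j ^ 2
      ≤ w (l, n) * (2 * dl n ^ l.length) * v j ^ 2 :=
    mul_le_mul_of_nonneg_right (hmin l hl) (sq_nonneg _)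
  linarith

end Q88.PropS
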